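import Mathlib
import Pool.Agent.R528.RM.Hawkins

set_option autoImplicit false

/-!
# The second order law for the gaps of the Hawkins random sieve

The sieve of Eratosthenes keeps a number `n ≥ 2` exactly when no smaller kept number `j` strikes it
out, `j` striking out its multiples.  In the Hawkins random sieve every kept number `j` strikes out
each larger number `n` with probability `1 / j`, all these decisions being independent.  The kept
numbers are the Hawkins primes.  They are strongly dependent: the chance of `n` to be kept is the
random number `∏ (1 - 1 / j)` over the kept `j < n`.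

The theorem below determines the extreme gaps between Hawkins primes up to the second order: almost
surely `(g(n) - (log p(n))²) / (log p(n) log log log p(n))` has upper limit exactly `1`.  In
particular the analogue of Cramér's inequality `g(n) < (log p(n))²` fails infinitely often almost
surely, while `g(n) < (log p(n))² + (1 + ε) log p(n) log log log p(n)` holds from some point on.
-/

open MeasureTheory ProbabilityTheory Filter
open scoped Topology

namespace Pool.Agent.Results.MP_69be96_nt.HawkinsSieveSecondOrderLaw

/-- `n` is kept by the sieve in which `r j n` means that `j`, if it is kept itself, strikes out the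
larger number `n`: the number `n` is at least `2` and no smaller kept number strikes it out -/
def Kept (r : ℕ → ℕ → Prop) (n : ℕ) : Prop :=
  2 ≤ n ∧ ∀ j : Fin n, Kept r j → ¬ r j n
termination_by n
decreasing_by exact j.2

/-- the member number `n` of `S` in increasing order (the least member has number `0`) -/
noncomputable def member (S : Set ℕ) (n : ℕ) : ℕ := Nat.nth (· ∈ S) n

/-- Cramér's gap: the number of integers strictly between the member number `n` of `S` and the
next member of `S` -/
noncomputable def g (S : Set ℕ) (n : ℕ) : ℕ := member S (n + 1) - member S n - 1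

/-- the Hawkins primes of the outcome `ω`, where `R j n` is the event that `j` strikes out `n` -/
def hawkins {Ω : Type} (R : ℕ → ℕ → Set Ω) (ω : Ω) : Set ℕ := {n | Kept (fun j n => ω ∈ R j n) n}

lemma kept_eq (r : ℕ → ℕ → Prop) (n : ℕ) : Kept r n ↔ Pool.Agent.R528.RM.Survives r n := by
  induction n using Nat.strong_induction_on with
  | _ n ih =>
    rw [Kept, Pool.Agent.R528.RM.Survives]
    constructor
    · rintro ⟨h1, h2⟩
      exact ⟨h1, fun j hj => h2 j ((ih j j.2).2 hj)⟩
    · rintro ⟨h1, h2⟩
      exact ⟨h1, fun j hj => h2 j ((ih j j.2).1 hj)⟩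

/-- a check of the definition: with divisibility as the striking relation the sieve is that of
Eratosthenes and keeps exactly the primes -/
lemma kept_dvd (n : ℕ) : Kept (fun j n => j ∣ n) n ↔ n.Prime :=
  (kept_eq _ n).trans (Pool.Agent.R528.RM.survives_dvd n)

end Pool.Agent.Results.MP_69be96_nt.HawkinsSieveSecondOrderLaw

open Pool.Agent.Results.MP_69be96_nt.HawkinsSieveSecondOrderLaw

/-- Let `R j n` (`2 ≤ j < n`: the event that `j` strikes out `n`) be independent events of
probability `1 / j`.  Then almost surely the set of the Hawkins primes is infinite, for every `ε > 0`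
its gaps satisfy `g(n) < (log p(n))² + (1 + ε) log p(n) log log log p(n)` for all large `n` and
`g(n) ≥ (log p(n))² + (1 - ε) log p(n) log log log p(n)` for infinitely many `n`, and
`g(n) ≥ (log p(n))²` for infinitely many `n`. -/
theorem Pool.Agent.Results.MP_69be96_nt.HawkinsSieveSecondOrderLaw.result
    {Ω : Type} [MeasurableSpace Ω] (μ : Measure Ω) [IsProbabilityMeasure μ] (R : ℕ → ℕ → Set Ω)
    (hR : ∀ j n, MeasurableSet (R j n)) (hI : iIndepSet (fun x : ℕ × ℕ => R x.1 x.2) μ)
    (hp : ∀ j n, 2 ≤ j → j < n → μ.real (R j n) = 1 / j) :
    ∀ᵐ ω ∂μ, (hawkins R ω).Infinite ∧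
      (∀ ε : ℝ, 0 < ε →
        (∀ᶠ n in atTop, (g (hawkins R ω) n : ℝ) <
          Real.log (member (hawkins R ω) n) ^ 2 + (1 + ε) * Real.log (member (hawkins R ω) n) *
            Real.log (Real.log (Real.log (member (hawkins R ω) n)))) ∧
        (∃ᶠ n in atTop,
          Real.log (member (hawkins R ω) n) ^ 2 + (1 - ε) * Real.log (member (hawkins R ω) n) *
            Real.log (Real.log (Real.log (member (hawkins R ω) n))) ≤ g (hawkins R ω) n)) ∧
      ∃ᶠ n in atTop, Real.log (member (hawkins R ω) n) ^ 2 ≤ g (hawkins R ω) n := by
  filter_upwards [Pool.Agent.R528.RM.hawkins_law hR hI hp] with ω hω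
  have e : Pool.Agent.R528.RM.rset (Pool.Agent.R528.RM.surv R) ω = hawkins R ω := by
    ext n
    exact (kept_eq _ n).symm
  rw [e] at hω
  obtain ⟨h1, h2⟩ := hω
  refine ⟨h1, fun ε hε => h2 ε hε, ?_⟩
  have h3 := (h2 1 one_pos).2
  refine h3.mono fun n hn => ?_
  simp only [sub_self, zero_mul, add_zero] at hn
  exact hn
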