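import Mathlib
import Pool.Agent.R528.RM.HawkinsViol

set_option autoImplicit false

/-!
# How often Cramér's inequality fails for the Hawkins primes

The sieve of Eratosthenes keeps a number `n ≥ 2` exactly when no smaller kept number `j` strikes it
out, `j` striking out its multiples.  In the Hawkins random sieve every kept number `j` strikes out
each larger number `n` with probability `1 / j`, all these decisions being independent.  The kept
numbers are the Hawkins primes.

The theorem below says how often Cramér's inequality `g(n) < (log p(n))²` fails for the Hawkins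
primes.  Almost surely `∏ (1 - 1 / j)⁻¹ - log n` (product over the Hawkins primes `j ≤ n`) has a
limit `C`, and the number of violations of the inequality with `p(n) ≤ x` is asymptotic to
`exp (C - 1 / 2) * log log x`, with this random constant `C`.
-/

open MeasureTheory ProbabilityTheory Filter
open scoped Topology

namespace Pool.Agent.Results.MP_69be96_nt.HawkinsViolationCount

/-- `n` is kept by the sieve in which `r j n` means that `j`, if it is kept itself, strikes out the
larger number `n`: the number `n` is at least `2` and no smaller kept number strikes it out -/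
def Kept (r : ℕ → ℕ → Prop) (n : ℕ) : Prop :=
  2 ≤ n ∧ ∀ j : Fin n, Kept r j → ¬ r j n
termination_by n
decreasing_by exact j.2

/-- the Hawkins primes of the outcome `ω`, where `R j n` is the event that `j` strikes out `n` -/
def hawkins {Ω : Type} (R : ℕ → ℕ → Set Ω) (ω : Ω) : Set ℕ := {n | Kept (fun j n => ω ∈ R j n) n}

open Classical in
/-- the product of `1 - 1 / j` over the Hawkins primes `j ≤ n` -/
noncomputable def mertens {Ω : Type} (R : ℕ → ℕ → Set Ω) (ω : Ω) (n : ℕ) : ℝ :=
  ∏ j ∈ (Finset.range (n + 1)).filter (fun j => j ∈ hawkins R ω), (1 - 1 / (j : ℝ))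

/-- the member number `n` of `S` in increasing order (the least member has number `0`) -/
noncomputable def member (S : Set ℕ) (n : ℕ) : ℕ := Nat.nth (· ∈ S) n

/-- Cramér's gap: the number of integers strictly between the member number `n` of `S` and the
next member of `S` -/
noncomputable def g (S : Set ℕ) (n : ℕ) : ℕ := member S (n + 1) - member S n - 1

/-- the number of violations of Cramér's inequality by members of `S` up to `x`: the number of `n`
such that `p(n) ≤ x` and `g(n) ≥ (log p(n))²` -/
noncomputable def violations (S : Set ℕ) (x : ℕ) : ℕ :=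
  Set.ncard {n : ℕ | member S n ≤ x ∧ Real.log (member S n) ^ 2 ≤ g S n}

lemma kept_eq (r : ℕ → ℕ → Prop) (n : ℕ) : Kept r n ↔ Pool.Agent.R528.RM.Survives r n := by
  induction n using Nat.strong_induction_on with
  | _ n ih =>
    rw [Kept, Pool.Agent.R528.RM.Survives]
    constructor
    · rintro ⟨h1, h2⟩
      exact ⟨h1, fun j hj => h2 j ((ih j j.2).2 hj)⟩
    · rintro ⟨h1, h2⟩
      exact ⟨h1, fun j hj => h2 j ((ih j j.2).1 hj)⟩

/-- a check of the definition: with divisibility as the striking relation the sieve is that of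
Eratosthenes and keeps exactly the primes -/
lemma kept_dvd (n : ℕ) : Kept (fun j n => j ∣ n) n ↔ n.Prime :=
  (kept_eq _ n).trans (Pool.Agent.R528.RM.survives_dvd n)

lemma hawkins_eq {Ω : Type} (R : ℕ → ℕ → Set Ω) (ω : Ω) :
    hawkins R ω = Pool.Agent.R528.RM.rset (Pool.Agent.R528.RM.surv R) ω := by
  ext n
  exact kept_eq _ n

lemma mertens_eq {Ω : Type} (R : ℕ → ℕ → Set Ω) (ω : Ω) (n : ℕ) :
    mertens R ω n = Pool.Agent.R528.RM.Dd R n ω := by
  classical
  unfold mertens Pool.Agent.R528.RM.Dd
  rw [Finset.prod_filter]
  have h1 : ∀ j, (if j ∈ hawkins R ω then 1 - 1 / (j : ℝ) else 1) =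
      1 - (Pool.Agent.R528.RM.surv R j).indicator (fun _ => 1 / (j : ℝ)) ω := by
    intro j
    have h2 : j ∈ hawkins R ω ↔ ω ∈ Pool.Agent.R528.RM.surv R j := by
      rw [hawkins_eq]
      rfl
    by_cases h : ω ∈ Pool.Agent.R528.RM.surv R j
    · rw [if_pos (h2.2 h), Set.indicator_of_mem h]
    · rw [if_neg (fun h' => h (h2.1 h')), Set.indicator_of_notMem h, sub_zero]
  rw [Finset.prod_congr rfl fun j _ => h1 j]
  symm
  apply Finset.prod_subset
  · intro j hj
    rw [Finset.mem_Icc] at hj
    rw [Finset.mem_range]
    omega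
  · intro j hj hj'
    rw [Finset.mem_Icc] at hj'
    rw [Finset.mem_range] at hj
    have h3 : ω ∉ Pool.Agent.R528.RM.surv R j := by
      intro h
      have := ((Pool.Agent.R528.RM.mem_surv R j ω).1 h).1
      omega
    rw [Set.indicator_of_notMem h3, sub_zero]

end Pool.Agent.Results.MP_69be96_nt.HawkinsViolationCount

open Pool.Agent.Results.MP_69be96_nt.HawkinsViolationCount

/-- Let `R j n` (`2 ≤ j < n`: the event that `j` strikes out `n`) be independent events of
probability `1 / j`.  Then almost surely the set of the Hawkins primes is infinite, the reciprocal of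
the product of `1 - 1 / j` over the Hawkins primes `j ≤ n`, minus `log n`, has a limit `C`, and the
number of violations of Cramér's inequality `g(n) < (log p(n))²` by Hawkins primes `p(n) ≤ x`,
divided by `log log x`, tends to `exp (C - 1 / 2)`. -/
theorem Pool.Agent.Results.MP_69be96_nt.HawkinsViolationCount.result
    {Ω : Type} [MeasurableSpace Ω] (μ : Measure Ω) [IsProbabilityMeasure μ] (R : ℕ → ℕ → Set Ω)
    (hR : ∀ j n, MeasurableSet (R j n)) (hI : iIndepSet (fun x : ℕ × ℕ => R x.1 x.2) μ)
    (hp : ∀ j n, 2 ≤ j → j < n → μ.real (R j n) = 1 / j) :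
    ∀ᵐ ω ∂μ, (hawkins R ω).Infinite ∧ ∃ C : ℝ,
      Tendsto (fun n : ℕ => (mertens R ω n)⁻¹ - Real.log n) atTop (𝓝 C) ∧
      Tendsto (fun x : ℕ => (violations (hawkins R ω) x : ℝ) / Real.log (Real.log x)) atTop
        (𝓝 (Real.exp (C - 1 / 2))) := by
  filter_upwards [Pool.Agent.R528.RM.hawkins_viol hR hI hp] with ω hω
  obtain ⟨h1, C, h2, h3⟩ := hω
  rw [← hawkins_eq] at h1 h3
  refine ⟨h1, C, h2.congr fun n => ?_, h3⟩
  rw [mertens_eq]
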