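import Mathlib
import Pool.Agent.R528.RM.Final

set_option autoImplicit false

/-!
# The second order law for the gaps of random models of the primes

Cramér's question `g(n) < (log p(n))²` comes from a random model of the primes.  The theorem below
determines the extreme size of the gaps, up to the second order, in EVERY random model in which the
integers are decided one after the other, the conditional probability that `n + 1` is chosen given
the past being `1 / (log n + o(log log log n))`.  No independence is assumed.  Cramér's model (the
integer `n` is chosen with probability `1 / log n`, independently) is the special case in which the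
conditional probabilities are constants; the Hawkins random sieve is another case.

Almost surely `(g(n) - (log p(n))²) / (log p(n) log log log p(n))` has upper limit exactly `1`; in
particular Cramér's inequality `g(n) < (log p(n))²` is violated infinitely often almost surely,
while `g(n) < (log p(n))² + (1 + ε) log p(n) log log log p(n)` holds from some point on.
-/

open MeasureTheory Filter
open scoped Topology

namespace Pool.Agent.Results.MP_69be96_nt.RandomModelSecondOrderLaw

/-- the member number `n` of `S` in increasing order (the least member has number `0`) -/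
noncomputable def member (S : Set ℕ) (n : ℕ) : ℕ := Nat.nth (· ∈ S) n

/-- Cramér's gap: the number of integers strictly between the member number `n` of `S` and the
next member of `S` -/
noncomputable def g (S : Set ℕ) (n : ℕ) : ℕ := member S (n + 1) - member S n - 1

end Pool.Agent.Results.MP_69be96_nt.RandomModelSecondOrderLaw

open Pool.Agent.Results.MP_69be96_nt.RandomModelSecondOrderLaw

/-- Let `A n` be the event that `n` belongs to a random set adapted to a filtration `ℱ`, and suppose
that almost surely the conditional probability `d` of `A (n + 1)` given `ℱ n` satisfies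
`1 / d = log n + o(log log log n)`.  Then almost surely the random set is infinite, for every `ε > 0`
its gaps satisfy `g(n) < (log p(n))² + (1 + ε) log p(n) log log log p(n)` for all large `n` and
`g(n) ≥ (log p(n))² + (1 - ε) log p(n) log log log p(n)` for infinitely many `n`, and
`g(n) ≥ (log p(n))²` for infinitely many `n`. -/
theorem Pool.Agent.Results.MP_69be96_nt.RandomModelSecondOrderLaw.result
    {Ω : Type} [mΩ : MeasurableSpace Ω] (μ : Measure Ω) [IsProbabilityMeasure μ]
    (ℱ : Filtration ℕ mΩ) (A : ℕ → Set Ω) (hA : ∀ n, MeasurableSet[ℱ n] (A n))
    (hd : ∀ᵐ ω ∂μ, Tendsto (fun n : ℕ =>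
      ((μ[(A (n + 1)).indicator (fun _ => (1 : ℝ)) | ℱ n] ω)⁻¹ - Real.log n) /
        Real.log (Real.log (Real.log n))) atTop (𝓝 0)) :
    ∀ᵐ ω ∂μ, {k | ω ∈ A k}.Infinite ∧
      (∀ ε : ℝ, 0 < ε →
        (∀ᶠ n in atTop, (g {k | ω ∈ A k} n : ℝ) <
          Real.log (member {k | ω ∈ A k} n) ^ 2 + (1 + ε) * Real.log (member {k | ω ∈ A k} n) *
            Real.log (Real.log (Real.log (member {k | ω ∈ A k} n)))) ∧
        (∃ᶠ n in atTop,
          Real.log (member {k | ω ∈ A k} n) ^ 2 + (1 - ε) * Real.log (member {k | ω ∈ A k} n) *
            Real.log (Real.log (Real.log (member {k | ω ∈ A k} n))) ≤ g {k | ω ∈ A k} n)) ∧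
      ∃ᶠ n in atTop, Real.log (member {k | ω ∈ A k} n) ^ 2 ≤ g {k | ω ∈ A k} n := by
  filter_upwards [Pool.Agent.R528.RM.second_order hA hd] with ω hω
  obtain ⟨h1, h2⟩ := hω
  refine ⟨h1, fun ε hε => h2 ε hε, ?_⟩
  have h3 := (h2 1 one_pos).2
  refine h3.mono fun n hn => ?_
  simp only [sub_self, zero_mul, add_zero] at hn
  exact hn
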