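import Mathlib
import Pool.Agent.R528.RM.HawkinsViol

set_option autoImplicit false

/-!
# How often Cramér's inequality fails in random models of the primes

Consider a random set of integers which are decided one after the other, `d n` being the conditional
probability that `n + 1` is chosen given the past.  Suppose that `1 / d n - log n` converges almost
surely, to a possibly random limit `C`, and that `1 / d` varies slowly:
`|1 / d (n + 1) - 1 / d n| ≤ (K / n) (1 / d n)`.  In Cramér's model (`n ≥ 3` is chosen with
probability `1 / log n`, independently) `d n = 1 / log (n + 1)` and `C = 0`; in the Hawkins random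
sieve `C` is a non-degenerate random variable.

The theorem says how often Cramér's inequality `g(n) < (log p(n))²` is violated: almost surely the
number of violations with `p(n) ≤ x` is asymptotic to `exp (C - 1 / 2) * log log x`.  So in Cramér's
own model the number of violations up to `x` is asymptotic to `e^(-1/2) log log x`.
-/

open MeasureTheory Filter
open scoped Topology

namespace Pool.Agent.Results.MP_69be96_nt.ViolationCountRandomModels

/-- the member number `n` of `S` in increasing order (the least member has number `0`) -/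
noncomputable def member (S : Set ℕ) (n : ℕ) : ℕ := Nat.nth (· ∈ S) n

/-- Cramér's gap: the number of integers strictly between the member number `n` of `S` and the
next member of `S` -/
noncomputable def g (S : Set ℕ) (n : ℕ) : ℕ := member S (n + 1) - member S n - 1

/-- the number of violations of Cramér's inequality by members of `S` up to `x`: the number of `n`
such that `p(n) ≤ x` and `g(n) ≥ (log p(n))²` -/
noncomputable def violations (S : Set ℕ) (x : ℕ) : ℕ :=
  Set.ncard {n : ℕ | member S n ≤ x ∧ Real.log (member S n) ^ 2 ≤ g S n}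

/-- the conditional probability of `A (n + 1)` given the past `ℱ n` -/
noncomputable def d {Ω : Type} [mΩ : MeasurableSpace Ω] (μ : Measure Ω) (ℱ : Filtration ℕ mΩ)
    (A : ℕ → Set Ω) (n : ℕ) : Ω → ℝ :=
  μ[(A (n + 1)).indicator (fun _ => (1 : ℝ)) | ℱ n]

end Pool.Agent.Results.MP_69be96_nt.ViolationCountRandomModels

open Pool.Agent.Results.MP_69be96_nt.ViolationCountRandomModels

/-- Let `A n` be the event that `n` belongs to a random set adapted to a filtration `ℱ`, with
conditional probabilities `d n`.  Suppose that for some constants `K` and `n₀` almost surely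
`|1 / d (n + 1) - 1 / d n| ≤ (K / n) |1 / d n|` for all `n ≥ n₀`, and that almost surely
`1 / d n - log n` converges.  Then almost surely the random set is infinite and, `C` being the limit
of `1 / d n - log n`, the number of violations of Cramér's inequality up to `x` divided by
`log log x` tends to `exp (C - 1 / 2)`. -/
theorem Pool.Agent.Results.MP_69be96_nt.ViolationCountRandomModels.result
    {Ω : Type} [mΩ : MeasurableSpace Ω] (μ : Measure Ω) [IsProbabilityMeasure μ]
    (ℱ : Filtration ℕ mΩ) (A : ℕ → Set Ω) (hA : ∀ n, MeasurableSet[ℱ n] (A n)) (K : ℝ) (n₀ : ℕ)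
    (hK : ∀ᵐ ω ∂μ, ∀ n, n₀ ≤ n → |(d μ ℱ A (n + 1) ω)⁻¹ - (d μ ℱ A n ω)⁻¹| ≤ K / n * |(d μ ℱ A n ω)⁻¹|)
    (hC : ∀ᵐ ω ∂μ, ∃ C : ℝ, Tendsto (fun n : ℕ => (d μ ℱ A n ω)⁻¹ - Real.log n) atTop (𝓝 C)) :
    ∀ᵐ ω ∂μ, {k | ω ∈ A k}.Infinite ∧ ∃ C : ℝ,
      Tendsto (fun n : ℕ => (d μ ℱ A n ω)⁻¹ - Real.log n) atTop (𝓝 C) ∧
      Tendsto (fun x : ℕ => (violations {k | ω ∈ A k} x : ℝ) / Real.log (Real.log x)) atTop
        (𝓝 (Real.exp (C - 1 / 2))) :=
  Pool.Agent.R528.RM.violations' hA K n₀ hK hC
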